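import Mathlib

/-!
# MP_632b8e: a topological group without Cld-fans which is not a k-space

For a set `A` with more than `ℵ₁` elements let `G` be the group of all `x : A → Z/2` which are
`0` off a countable set or `1` off a countable set, with the topology of pointwise convergence.
-/

open Filter Topology Cardinal

namespace Pool.Agent.Results.MP_632b8e_gt.NotK

/-- `X` is a `k`-space: a set is closed as soon as its trace on every compact `K` is closed
in `K`. -/
def IsKSpace (X : Type*) [TopologicalSpace X] : Prop :=
  ∀ C : Set X, (∀ K : Set X, IsCompact K → IsClosed {x : K | (x : X) ∈ C}) → IsClosed C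

/-- The indexed family `F` is compact-finite. -/
def CompactFinite {X ι : Type*} [TopologicalSpace X] (F : ι → Set X) : Prop :=
  ∀ K : Set X, IsCompact K → {i | (F i ∩ K).Nonempty}.Finite

variable (A : Type)

/-- The two element discrete group. -/
def Two : Type := ZMod 2

instance : AddCommGroup Two := inferInstanceAs (AddCommGroup (ZMod 2))
instance : TopologicalSpace Two := ⊥
instance : DiscreteTopology Two := ⟨rfl⟩
instance : Finite Two := inferInstanceAs (Finite (ZMod 2))
instance : One Two := inferInstanceAs (One (ZMod 2))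

theorem two_cases (a : Two) : a = 0 ∨ a = 1 := by
  have : ∀ a : ZMod 2, a = 0 ∨ a = 1 := by decide
  exact this a

theorem zero_ne_one' : (0 : Two) ≠ 1 := by
  have : (0 : ZMod 2) ≠ 1 := by decide
  exact this

theorem one_add_one' : (1 : Two) + 1 = 0 := by
  have : (1 : ZMod 2) + 1 = 0 := by decide
  exact this

theorem neg_eq' (a : Two) : -a = a := by
  have : ∀ a : ZMod 2, -a = a := by decide
  exact this a

/-- The group `G` of all `x : A → Z/2` such that `{x ≠ 0}` or `{x ≠ 1}` is countable. -/
def G : AddSubgroup (A → Two) where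
  carrier := {x | {a | x a ≠ 0}.Countable ∨ {a | x a ≠ 1}.Countable}
  zero_mem' := by
    left
    simp
  add_mem' := by
    rintro x y (hx | hx) (hy | hy)
    · left
      refine (hx.union hy).mono ?_
      intro a ha
      by_contra hcon
      simp only [Set.mem_union, Set.mem_ofPred_eq, not_or, not_not] at hcon
      apply ha
      simp [hcon.1, hcon.2]
    · right
      refine (hx.union hy).mono ?_
      intro a ha
      by_contra hcon
      simp only [Set.mem_union, Set.mem_ofPred_eq, not_or, not_not] at hcon
      apply ha
      simp [hcon.1, hcon.2]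
    · right
      refine (hx.union hy).mono ?_
      intro a ha
      by_contra hcon
      simp only [Set.mem_union, Set.mem_ofPred_eq, not_or, not_not] at hcon
      apply ha
      simp [hcon.1, hcon.2]
    · left
      refine (hx.union hy).mono ?_
      intro a ha
      by_contra hcon
      simp only [Set.mem_union, Set.mem_ofPred_eq, not_or, not_not] at hcon
      apply ha
      simp [hcon.1, hcon.2, one_add_one']
  neg_mem' := by
    intro x hx
    have : -x = x := by
      ext a
      exact neg_eq' _
    rw [this]
    exact hx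

variable {A}

theorem isCompact_iff (K : Set (G A)) : IsCompact K ↔ IsCompact (Subtype.val '' K) :=
  Subtype.isCompact_iff

/-- Every countable subset of `G` is contained in a compact subset. -/
theorem countable_subset_compact (D : Set (G A)) (hD : D.Countable) :
    ∃ K : Set (G A), IsCompact K ∧ D ⊆ K := by
  classical
  let S : Set A := ⋃ x ∈ D, (if {a | (x : A → Two) a ≠ 0}.Countable then
    {a | (x : A → Two) a ≠ 0} else {a | (x : A → Two) a ≠ 1})
  have hS : S.Countable := by
    refine hD.biUnion ?_
    intro x _
    split_ifs with h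
    · exact h
    · exact x.2.resolve_left h
  let K : Set (A → Two) := {x | ∀ a ∉ S, x a = 0} ∪ {x | ∀ a ∉ S, x a = 1}
  have hKc : IsCompact K := by
    apply IsClosed.isCompact
    apply IsClosed.union
    · simp only [Set.ofPred_forall]
      refine isClosed_iInter fun a => isClosed_iInter fun _ => ?_
      exact isClosed_eq (continuous_apply a) continuous_const
    · simp only [Set.ofPred_forall]
      refine isClosed_iInter fun a => isClosed_iInter fun _ => ?_
      exact isClosed_eq (continuous_apply a) continuous_const
  have hKG : ∀ x ∈ K, x ∈ G A := by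
    rintro x (hx | hx)
    · left
      refine hS.mono ?_
      intro a ha
      by_contra h
      exact ha (hx a h)
    · right
      refine hS.mono ?_
      intro a ha
      by_contra h
      exact ha (hx a h)
  refine ⟨{x | (x : A → Two) ∈ K}, ?_, ?_⟩
  · rw [isCompact_iff]
    have : Subtype.val '' {x : G A | (x : A → Two) ∈ K} = K := by
      ext x
      constructor
      · rintro ⟨y, hy, rfl⟩
        exact hy
      · intro hx
        exact ⟨⟨x, hKG x hx⟩, hx, rfl⟩
    rw [this]
    exact hKc
  · intro x hx
    by_cases h : {a | (x : A → Two) a ≠ 0}.Countable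
    · left
      intro a ha
      by_contra hne
      apply ha
      refine Set.mem_biUnion hx ?_
      rw [if_pos h]
      exact hne
    · right
      intro a ha
      by_contra hne
      apply ha
      refine Set.mem_biUnion hx ?_
      rw [if_neg h]
      exact hne

/-- A compact-finite family in a space in which every countable set lies in a compact set has
only finitely many non-empty members. -/
theorem finite_nonempty {X : Type*} [TopologicalSpace X]
    (hX : ∀ D : Set X, D.Countable → ∃ K : Set X, IsCompact K ∧ D ⊆ K)
    {ι : Type*} (F : ι → Set X) (hF : CompactFinite F) : {i | (F i).Nonempty}.Finite := by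
  by_contra hinf
  have hinf' : {i | (F i).Nonempty}.Infinite := hinf
  let j := hinf'.natEmbedding
  have hj : ∀ n, ∃ x, x ∈ F (j n) := fun n => (j n).2
  choose x hx using hj
  obtain ⟨K, hK, hDK⟩ := hX (Set.range x) (Set.countable_range x)
  have hfin := hF K hK
  have hsub : Set.range (fun n => ((j n : {i | (F i).Nonempty}) : ι)) ⊆
      {i | (F i ∩ K).Nonempty} := by
    rintro _ ⟨n, rfl⟩
    exact ⟨x n, hx n, hDK ⟨n, rfl⟩⟩
  have hinj : Function.Injective (fun n => ((j n : {i | (F i).Nonempty}) : ι)) :=
    Subtype.val_injective.comp j.injective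
  exact Set.infinite_range_of_injective hinj (hfin.subset hsub)

/-- Elements of `G` with countable support. -/
def Sig : Set (G A) := {x | {a | (x : A → Two) a ≠ 0}.Countable}

theorem not_isClosed_Sig (hA : ℵ₀ < #A) : ¬ IsClosed (Sig : Set (G A)) := by
  intro hcl
  let one : G A := ⟨fun _ => 1, Or.inr (by simp)⟩
  have hone : one ∈ closure (Sig : Set (G A)) := by
    rw [mem_closure_iff_nhds]
    intro U hU
    obtain ⟨V, hV, hVU⟩ := (mem_nhds_induced _ _ _).1 hU
    rw [nhds_pi, Filter.mem_pi'] at hV
    obtain ⟨I, t, ht, hsub⟩ := hV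
    classical
    let z : A → Two := fun a => if a ∈ I then 1 else 0
    have hz : {a | z a ≠ 0}.Countable := by
      refine (I.countable_toSet).mono ?_
      intro a ha
      by_contra h
      apply ha
      show (if a ∈ I then (1 : Two) else 0) = 0
      rw [if_neg (by simpa using h)]
    refine ⟨⟨z, Or.inl hz⟩, hVU ?_, hz⟩
    apply hsub
    intro a ha
    have : z a = 1 := by
      show (if a ∈ I then (1 : Two) else 0) = 1
      rw [if_pos (by simpa using ha)]
    show z a ∈ t a
    rw [this]
    exact mem_of_mem_nhds (ht a)
  rw [hcl.closure_eq] at hone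
  have h1 : {a : A | (1 : Two) ≠ 0}.Countable := hone
  have h2 : {a : A | (1 : Two) ≠ 0} = Set.univ := by
    ext a
    simp [zero_ne_one'.symm]
  rw [h2, Set.countable_univ_iff, ← Cardinal.mk_le_aleph0_iff] at h1
  exact absurd h1 (not_le.2 hA)

theorem isClosed_Sig_inter (hA : Cardinal.aleph 1 < #A) (K : Set (G A)) (hK : IsCompact K) :
    IsClosed {x : K | (x : G A) ∈ Sig} := by
  rw [← isOpen_compl_iff, isOpen_iff_mem_nhds]
  rintro ⟨y, hyK⟩ hy
  by_contra hnot
  have hySig : y ∉ Sig := hy
  have hcl : (⟨y, hyK⟩ : K) ∈ closure {x : K | (x : G A) ∈ Sig} := by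
    rw [closure_eq_compl_interior_compl]
    intro h
    exact hnot (mem_interior_iff_mem_nhds.1 h)
  have hy1 : {a | (y : A → Two) a ≠ 1}.Countable := y.2.resolve_left hySig
  -- a subset of `{y = 1}` of cardinality `ℵ₁`
  have hbig : Cardinal.aleph 1 ≤ #{a : A | (y : A → Two) a = 1} := by
    by_contra hlt
    rw [not_le] at hlt
    have h1 : #A ≤ #{a : A | (y : A → Two) a = 1} + #{a | (y : A → Two) a ≠ 1} := by
      rw [← Cardinal.mk_univ (α := A)]
      refine le_trans (Cardinal.mk_le_mk_of_subset ?_) (Cardinal.mk_union_le _ _)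
      intro a _
      by_cases h : (y : A → Two) a = 1
      · exact Or.inl h
      · exact Or.inr h
    have h2 : #{a | (y : A → Two) a ≠ 1} ≤ Cardinal.aleph 1 :=
      (Cardinal.mk_le_aleph0_iff.2 hy1.to_subtype).trans (Cardinal.aleph0_le_aleph 1)
    have h3 : #A ≤ Cardinal.aleph 1 := by
      refine h1.trans ((add_le_add hlt.le h2).trans ?_)
      rw [Cardinal.add_eq_self (Cardinal.aleph0_le_aleph 1)]
    exact absurd hA (not_lt.2 h3)
  obtain ⟨T0, hT0sub, hT0card⟩ := Cardinal.le_mk_iff_exists_subset.1 hbig
  -- the net
  have hnet : ∀ F : Finset T0, ∃ x : G A, x ∈ K ∧ x ∈ Sig ∧ ∀ a ∈ F, (x : A → Two) a = 1 := by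
    intro F
    rw [mem_closure_iff_nhds] at hcl
    let U : Set K := {x | ∀ a ∈ F, ((x : G A) : A → Two) a = 1}
    have hU : U ∈ 𝓝 (⟨y, hyK⟩ : K) := by
      have : U = ⋂ a ∈ F, {x : K | ((x : G A) : A → Two) a = 1} := by
        ext x
        simp [U]
      rw [this, Filter.biInter_finset_mem]
      intro a _
      have hcont : Continuous (fun x : K => ((x : G A) : A → Two) a) :=
        (continuous_apply (a : A)).comp (continuous_subtype_val.comp continuous_subtype_val)
      have hop : IsOpen {x : K | ((x : G A) : A → Two) a = 1} :=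
        (isOpen_discrete ({1} : Set Two)).preimage hcont
      exact hop.mem_nhds (hT0sub a.2)
    obtain ⟨⟨x, hxK⟩, hxU, hxS⟩ := hcl U hU
    exact ⟨x, hxK, hxS, hxU⟩
  choose x hxK hxS hx1 using hnet
  obtain ⟨p, hpK, hp⟩ := hK.exists_mapClusterPt (f := atTop) (u := x)
    (by rw [le_principal_iff, mem_map]; exact Filter.Eventually.of_forall (fun F => hxK F))
  -- `p = 1` on `T0`
  have hp1 : ∀ a ∈ T0, (p : A → Two) a = 1 := by
    intro a ha
    by_contra hne
    have hcont : Continuous (fun z : G A => (z : A → Two) a) :=
      (continuous_apply (a : A)).comp continuous_subtype_val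
    have hop : IsOpen {z : G A | (z : A → Two) a ≠ 1} :=
      (isOpen_discrete ({1}ᶜ : Set Two)).preimage hcont
    have hfr := mapClusterPt_iff_frequently.1 hp _ (hop.mem_nhds hne)
    have hev : ∀ᶠ F : Finset T0 in atTop, (x F : A → Two) a = 1 := by
      filter_upwards [eventually_ge_atTop ({⟨a, ha⟩} : Finset T0)] with F hF
      exact hx1 F ⟨a, ha⟩ (hF (Finset.mem_singleton_self _))
    obtain ⟨F, hF1, hF2⟩ := (hfr.and_eventually hev).exists
    exact hF1 hF2
  -- `p = 0` off `T`
  let T : Set A := ⋃ F : Finset T0, {a | (x F : A → Two) a ≠ 0}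
  have hp0 : ∀ a ∉ T, (p : A → Two) a = 0 := by
    intro a ha
    by_contra hne
    have hcont : Continuous (fun z : G A => (z : A → Two) a) :=
      (continuous_apply (a : A)).comp continuous_subtype_val
    have hop : IsOpen {z : G A | (z : A → Two) a ≠ 0} :=
      (isOpen_discrete ({0}ᶜ : Set Two)).preimage hcont
    have hfr := mapClusterPt_iff_frequently.1 hp _ (hop.mem_nhds hne)
    obtain ⟨F, hF⟩ := hfr.exists
    exact ha (Set.mem_iUnion.2 ⟨F, hF⟩)
  have hTcard : #T ≤ Cardinal.aleph 1 := by
    have hinf : Infinite T0 := by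
      rw [Cardinal.infinite_iff, hT0card]
      exact Cardinal.aleph0_le_aleph 1
    refine (Cardinal.mk_iUnion_le _).trans ?_
    have h1 : #(Finset T0) = Cardinal.aleph 1 := by
      rw [Cardinal.mk_finset_of_infinite, hT0card]
    have h2 : (⨆ F : Finset T0, #{a | (x F : A → Two) a ≠ 0}) ≤ ℵ₀ := by
      apply ciSup_le'
      intro F
      exact Cardinal.mk_le_aleph0_iff.2 (hxS F).to_subtype
    rw [h1]
    refine (mul_le_mul' le_rfl h2).trans ?_
    rw [Cardinal.mul_aleph0_eq (Cardinal.aleph0_le_aleph 1)]
  rcases p.2 with hc | hc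
  · -- `p` has uncountable support
    have : T0.Countable := hc.mono (fun a ha => by
      show (p : A → Two) a ≠ 0
      rw [hp1 a ha]
      exact zero_ne_one'.symm)
    have h1 := Cardinal.mk_le_aleph0_iff.2 this.to_subtype
    rw [hT0card] at h1
    exact absurd (Cardinal.aleph0_lt_aleph_one) (not_lt.2 h1)
  · -- the complement of the support of `p` is uncountable
    have h1 : #A ≤ #T + #{a | (p : A → Two) a ≠ 1} := by
      rw [← Cardinal.mk_univ (α := A)]
      refine le_trans (Cardinal.mk_le_mk_of_subset ?_) (Cardinal.mk_union_le _ _)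
      intro a _
      by_cases h : a ∈ T
      · exact Or.inl h
      · right
        show (p : A → Two) a ≠ 1
        rw [hp0 a h]
        exact zero_ne_one'
    have h2 : #{a | (p : A → Two) a ≠ 1} ≤ Cardinal.aleph 1 :=
      (Cardinal.mk_le_aleph0_iff.2 hc.to_subtype).trans (Cardinal.aleph0_le_aleph 1)
    have h3 : #A ≤ Cardinal.aleph 1 := by
      refine h1.trans ((add_le_add hTcard h2).trans ?_)
      rw [Cardinal.add_eq_self (Cardinal.aleph0_le_aleph 1)]
    exact absurd hA (not_lt.2 h3)

theorem not_kspace (hA : Cardinal.aleph 1 < #A) : ¬ IsKSpace (G A) := by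
  intro h
  exact not_isClosed_Sig ((Cardinal.aleph0_le_aleph 1).trans_lt hA)
    (h Sig (fun K hK => isClosed_Sig_inter hA K hK))

universe u

/-- There is a Hausdorff topological abelian group `G` in which every countable subset is
contained in a compact subset, which contains no `Cld`-fan (in fact, every compact-finite family
of subsets of `G` is locally finite), and which is not a `k`-space. -/
theorem result : ∃ (G : Type) (_ : TopologicalSpace G) (_ : AddCommGroup G),
    IsTopologicalAddGroup G ∧ T2Space G ∧
    (∀ D : Set G, D.Countable → ∃ K : Set G, IsCompact K ∧ D ⊆ K) ∧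
    (∀ (ι : Type u) (F : ι → Set G), CompactFinite F → LocallyFinite F) ∧
    ¬ IsKSpace G := by
  have hA : Cardinal.aleph 1 < #(Set (Set ℕ)) := by
    rw [Cardinal.mk_set, Cardinal.mk_set, Cardinal.mk_nat]
    exact (Cardinal.aleph_one_le_continuum).trans_lt (Cardinal.cantor _)
  refine ⟨G (Set (Set ℕ)), inferInstance, inferInstance, inferInstance, inferInstance,
    countable_subset_compact, ?_, not_kspace hA⟩
  intro ι F hF x
  refine ⟨Set.univ, univ_mem, ?_⟩
  have := finite_nonempty countable_subset_compact F hF
  simpa using this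

end Pool.Agent.Results.MP_632b8e_gt.NotK
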